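import Mathlib

namespace Pool.Agent.Results.MP_673260_co.NonUnique

/-- A permutation in one-line form: a list of the numbers `0, ..., n-1` in some order. -/
def IsPerm (l : List ℕ) : Prop := l.Perm (List.range l.length)

/-- The pattern of a list: every entry is replaced by the number of smaller entries. -/
def std (l : List ℕ) : List ℕ := l.map fun x => (l.filter (· < x)).length

/-- A permutation class: a set of permutations containing the empty permutation and closed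
under taking patterns of subsequences. -/
def IsClass (C : Set (List ℕ)) : Prop :=
  (∀ π ∈ C, IsPerm π) ∧ [] ∈ C ∧ ∀ π ∈ C, ∀ l : List ℕ, l.Sublist π → std l ∈ C

/-- The merge: permutations with a red/blue colouring of the entries whose red pattern lies in
`A` and whose blue pattern lies in `B`. -/
def merge (A B : Set (List ℕ)) : Set (List ℕ) :=
  {π | IsPerm π ∧ ∃ p : ℕ → Bool, std (π.filter p) ∈ A ∧ std (π.filter fun x => !p x) ∈ B}

/-- `C = A ⊙ B` is an exact split. -/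
def ExactSplit (C A B : Set (List ℕ)) : Prop :=
  IsClass A ∧ IsClass B ∧ A ⊂ C ∧ B ⊂ C ∧ C = merge A B

/-- `IrrSplit C X`: the set of classes `X` is an irreducible exact-splitting of `C`. -/
inductive IrrSplit : Set (List ℕ) → Set (Set (List ℕ)) → Prop
  | base (C : Set (List ℕ)) : (¬ ∃ A B, ExactSplit C A B) → IrrSplit C {C}
  | step (C A B : Set (List ℕ)) (X Y : Set (Set (List ℕ))) :
      ExactSplit C A B → IrrSplit A X → IrrSplit B Y → IrrSplit C (X ∪ Y)

def rk (l : List ℕ) (x : ℕ) : ℕ := (l.filter (· < x)).length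

lemma rk_lt {l : List ℕ} {x y : ℕ} (hx : x ∈ l) (h : x < y) : rk l x < rk l y := by
  unfold rk
  have h1 : l.filter (· < x) = (l.filter (· < y)).filter (· < x) := by
    rw [List.filter_filter]; apply List.filter_congr; intro z _; simp; omega
  rw [h1]
  exact List.length_filter_lt_length_iff_exists.2 ⟨x, by simp [hx, h], by simp⟩

lemma rk_iff {l : List ℕ} {x y : ℕ} (hx : x ∈ l) (hy : y ∈ l) : rk l x < rk l y ↔ x < y := by
  refine ⟨fun h => ?_, rk_lt hx⟩
  rcases lt_trichotomy x y with h1 | h1 | h1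
  · exact h1
  · subst h1; omega
  · have := rk_lt hy h1; omega

lemma std_map {l : List ℕ} {f : ℕ → ℕ} (hf : ∀ x ∈ l, ∀ y ∈ l, f x < f y ↔ x < y) :
    std (l.map f) = std l := by
  unfold std
  rw [List.map_map]
  refine List.map_congr_left fun x hx => ?_
  simp only [Function.comp, List.filter_map, List.length_map]
  congr 1
  refine List.filter_congr fun y hy => ?_
  simp [hf y hy x hx]

lemma std_perm {l : List ℕ} (h : l.Nodup) : IsPerm (std l) := by
  have hn : (std l).Nodup := by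
    refine List.Nodup.map_on (fun x hx y hy hxy => ?_) h
    have h1 := rk_iff hx hy
    have h2 := rk_iff hy hx
    unfold rk at h1 h2
    omega
  refine (List.subperm_of_subset hn fun z hz => ?_).perm_of_length_le (by simp)
  obtain ⟨x, hx, rfl⟩ := List.mem_map.1 hz
  simp only [std, List.length_map, List.mem_range]
  exact List.length_filter_lt_length_iff_exists.2 ⟨x, hx, by simp⟩

lemma IsPerm.nodup {l : List ℕ} (h : IsPerm l) : l.Nodup := h.nodup_iff.2 List.nodup_range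

lemma std_self {l : List ℕ} (h : IsPerm l) : std l = l := by
  unfold std
  conv_rhs => rw [← List.map_id l]
  refine List.map_congr_left fun x hx => ?_
  rw [(h.filter _).length_eq]
  have hx' : x < l.length := List.mem_range.1 (h.subset hx)
  have : (List.range l.length).filter (· < x) = List.range x := by
    refine List.Perm.eq_of_pairwise (le := (· < ·)) (fun a b _ _ h1 h2 => by omega)
      (List.pairwise_lt_range.filter _) List.pairwise_lt_range ?_
    refine (List.perm_ext_iff_of_nodup (List.nodup_range.filter _) List.nodup_range).2 fun a => ?_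
    simp; omega
  simp [this]

lemma down {A : Set (List ℕ)} (hA : IsClass A) {l l' : List ℕ} (h : std l ∈ A)
    (hs : l'.Sublist l) : std l' ∈ A := by
  have := hA.2.2 _ h (l'.map (rk l)) (hs.map _)
  rwa [std_map fun x hx y hy => rk_iff (hs.subset hx) (hs.subset hy)] at this

/-- Good properties. -/
def Good (P : List ℕ → Prop) : Prop :=
  (∀ (l : List ℕ) (f : ℕ → ℕ), (∀ x ∈ l, ∀ y ∈ l, f x < f y ↔ x < y) → (P (l.map f) ↔ P l)) ∧
    P [] ∧ ∀ l l' : List ℕ, l'.Sublist l → P l → P l'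

def Cl (P : List ℕ → Prop) : Set (List ℕ) := {π | IsPerm π ∧ P π}

def Sp (P Q : List ℕ → Prop) (l : List ℕ) : Prop :=
  ∃ p : ℕ → Bool, P (l.filter p) ∧ Q (l.filter fun x => !p x)

lemma std_mem {P : List ℕ → Prop} (hP : Good P) {l : List ℕ} (h : l.Nodup) :
    std l ∈ Cl P ↔ P l :=
  (and_iff_right (std_perm h)).trans (hP.1 l (rk l) fun _ hx _ hy => rk_iff hx hy)

lemma cl_class {P : List ℕ → Prop} (hP : Good P) : IsClass (Cl P) :=
  ⟨fun _ h => h.1, ⟨List.Perm.refl _, hP.2.1⟩, fun _ h _ hl =>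
    (std_mem hP (h.1.nodup.sublist hl)).2 (hP.2.2 _ _ hl h.2)⟩

lemma merge_cl {P Q : List ℕ → Prop} (hP : Good P) (hQ : Good Q) :
    merge (Cl P) (Cl Q) = Cl (Sp P Q) := by
  ext π
  refine and_congr_right fun h => exists_congr fun p => ?_
  rw [std_mem hP (h.nodup.filter _), std_mem hQ (h.nodup.filter _)]

lemma good_sp {P Q : List ℕ → Prop} (hP : Good P) (hQ : Good Q) : Good (Sp P Q) := by
  classical
  refine ⟨fun l f hf => ⟨?_, ?_⟩, ⟨fun _ => true, hP.2.1, hQ.2.1⟩, ?_⟩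
  · rintro ⟨p, h1, h2⟩
    rw [List.filter_map] at h1 h2
    exact ⟨p ∘ f, (hP.1 _ f fun x hx y hy => hf x (List.mem_of_mem_filter hx) y
      (List.mem_of_mem_filter hy)).1 h1, (hQ.1 _ f fun x hx y hy => hf x
      (List.mem_of_mem_filter hx) y (List.mem_of_mem_filter hy)).1 h2⟩
  · rintro ⟨p, h1, h2⟩
    have hq : ∀ x ∈ l, decide (∃ y ∈ l, f y = f x ∧ p y = true) = p x := by
      intro x hx
      rw [Bool.eq_iff_iff, decide_eq_true_iff]
      refine ⟨fun ⟨y, hy, h3, h4⟩ => ?_, fun h => ⟨x, hx, rfl, h⟩⟩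
      have h5 := hf x hx y hy
      have h6 := hf y hy x hx
      have : y = x := by omega
      rwa [← this]
    refine ⟨fun z => decide (∃ y ∈ l, f y = z ∧ p y = true), ?_, ?_⟩
    · rw [List.filter_map, List.filter_congr (q := p)
        (fun x hx => by simp only [Function.comp, hq x hx])]
      exact (hP.1 _ f fun x hx y hy => hf x (List.mem_of_mem_filter hx) y
        (List.mem_of_mem_filter hy)).2 h1
    · rw [List.filter_map, List.filter_congr (q := fun x => !p x)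
        (fun x hx => by simp only [Function.comp, hq x hx])]
      exact (hQ.1 _ f fun x hx y hy => hf x (List.mem_of_mem_filter hx) y
        (List.mem_of_mem_filter hy)).2 h2
  · rintro l l' hl ⟨p, h1, h2⟩
    exact ⟨p, hP.2.2 _ _ (hl.filter _) h1, hQ.2.2 _ _ (hl.filter _) h2⟩

lemma good_or {P Q : List ℕ → Prop} (hP : Good P) (hQ : Good Q) : Good fun l => P l ∨ Q l :=
  ⟨fun l f hf => or_congr (hP.1 l f hf) (hQ.1 l f hf), Or.inl hP.2.1,
    fun l l' hl h => h.imp (hP.2.2 l l' hl) (hQ.2.2 l l' hl)⟩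

abbrev Inc (l : List ℕ) : Prop := l.Pairwise (· < ·)
abbrev Dec (l : List ℕ) : Prop := l.Pairwise (· > ·)
abbrev Mo (l : List ℕ) : Prop := Inc l ∨ Dec l
abbrev Wd (l : List ℕ) : Prop := Sp Inc Inc l ∨ Sp Dec Dec l

lemma gI : Good Inc := ⟨fun l f hf => by
  rw [Inc, List.pairwise_map]
  exact List.Pairwise.iff_of_mem fun hx hy => hf _ hx _ hy, List.Pairwise.nil,
  fun _ _ hl h => h.sublist hl⟩
lemma gD : Good Dec := ⟨fun l f hf => by
  rw [Dec, List.pairwise_map]
  exact List.Pairwise.iff_of_mem fun hx hy => hf _ hy _ hx, List.Pairwise.nil,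
  fun _ _ hl h => h.sublist hl⟩
lemma gM : Good Mo := good_or gI gD
lemma gW : Good Wd := good_or (good_sp gI gI) (good_sp gD gD)

lemma sp_swap {P Q R : List ℕ → Prop} {l : List ℕ} (h : Sp (Sp P Q) R l) : Sp (Sp P R) Q l := by
  obtain ⟨p, ⟨q, h1, h2⟩, h3⟩ := h
  refine ⟨fun x => !(p x && !q x), ⟨p, ?_, ?_⟩, ?_⟩
  · rw [List.filter_filter] at h1 ⊢
    convert h1 using 2; ext x; cases p x <;> cases q x <;> rfl
  · rw [List.filter_filter]
    convert h3 using 2; ext x; cases p x <;> cases q x <;> rfl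
  · rw [List.filter_filter] at h2
    convert h2 using 2; ext x; beta_reduce; cases p x <;> cases q x <;> rfl

lemma sp_mono {P Q P' Q' : List ℕ → Prop} (h1 : ∀ l, P l → P' l) (h2 : ∀ l, Q l → Q' l)
    (l : List ℕ) (h : Sp P Q l) : Sp P' Q' l := h.imp fun _ h => ⟨h1 _ h.1, h2 _ h.2⟩

lemma sp_comm {P Q : List ℕ → Prop} (l : List ℕ) (h : Sp P Q l) : Sp Q P l := by
  obtain ⟨p, h1, h2⟩ := h
  exact ⟨fun x => !p x, h2, by simpa using h1⟩

lemma key (l : List ℕ) : Sp (Sp Mo Mo) Mo l ↔ Sp Wd Mo l := by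
  constructor
  · rintro ⟨p, ⟨q, h1 | h1, h2 | h2⟩, h3⟩
    · exact ⟨p, Or.inl ⟨q, h1, h2⟩, h3⟩
    · rcases h3 with h3 | h3
      · exact sp_mono (fun _ => Or.inl) (fun _ => Or.inr) l (sp_swap ⟨p, ⟨q, h1, h2⟩, h3⟩)
      · exact sp_mono (fun _ => Or.inr) (fun _ => Or.inl) l
          (sp_swap ⟨p, sp_comm _ ⟨q, h1, h2⟩, h3⟩)
    · rcases h3 with h3 | h3
      · exact sp_mono (fun _ => Or.inl) (fun _ => Or.inr) l
          (sp_swap ⟨p, sp_comm _ ⟨q, h1, h2⟩, h3⟩)
      · exact sp_mono (fun _ => Or.inr) (fun _ => Or.inl) l (sp_swap ⟨p, ⟨q, h1, h2⟩, h3⟩)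
    · exact ⟨p, Or.inr ⟨q, h1, h2⟩, h3⟩
  · refine sp_mono (fun l h => ?_) (fun _ h => h) l
    rcases h with h | h
    · exact sp_mono (fun _ => Or.inl) (fun _ => Or.inl) l h
    · exact sp_mono (fun _ => Or.inr) (fun _ => Or.inr) l h

lemma sp_left {P Q : List ℕ → Prop} (hQ : Good Q) (l : List ℕ) (h : P l) : Sp P Q l :=
  ⟨fun _ => true, by simpa using h, by simpa using hQ.2.1⟩

instance (l : List ℕ) : Decidable (IsPerm l) := by unfold IsPerm; infer_instance

lemma one_mem {C A B : Set (List ℕ)} (hC : IsClass C) (h : ExactSplit C A B) :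
    [0] ∈ A ∧ [0] ∈ B := by
  obtain ⟨hA, hB, h1, h2, h3⟩ := h
  have aux : ∀ {D : Set (List ℕ)}, IsClass D → [0] ∉ D → ∀ l : List ℕ, std l ∈ D → l = [] := by
    intro D hD h0 l hl
    cases l with
    | nil => rfl
    | cons a t => exact absurd (by simpa [std] using down hD hl (l' := [a]) (by simp)) h0
  constructor
  · by_contra h0
    refine h2.2 fun π hπ => ?_
    have hp := hC.1 π hπ
    rw [h3] at hπ
    obtain ⟨-, p, h4, h5⟩ := hπ
    have h6 := aux hA h0 _ h4
    rw [List.filter_eq_nil_iff] at h6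
    rwa [List.filter_eq_self.2 (fun x hx => by simpa using h6 x hx), std_self hp] at h5
  · by_contra h0
    refine h1.2 fun π hπ => ?_
    have hp := hC.1 π hπ
    rw [h3] at hπ
    obtain ⟨-, p, h4, h5⟩ := hπ
    have h6 := aux hB h0 _ h5
    rw [List.filter_eq_nil_iff] at h6
    rwa [List.filter_eq_self.2 (fun x hx => by simpa using h6 x hx), std_self hp] at h4

lemma split_symm {C A B : Set (List ℕ)} (h : ExactSplit C A B) : ExactSplit C B A := by
  obtain ⟨hA, hB, h1, h2, h3⟩ := h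
  refine ⟨hB, hA, h2, h1, h3.trans ?_⟩
  ext π
  refine and_congr_right fun _ => ⟨fun ⟨p, a, b⟩ => ⟨fun x => !p x, b, by simpa using a⟩,
    fun ⟨p, a, b⟩ => ⟨fun x => !p x, b, by simpa using a⟩⟩

lemma mk {C A B : Set (List ℕ)} (h : ExactSplit C A B) (π : List ℕ) (p : ℕ → Bool)
    {σ τ : List ℕ} (hσ : σ ∈ A) (hτ : τ ∈ B)
    (hd : IsPerm π ∧ std (π.filter p) = σ ∧ std (π.filter fun x => !p x) = τ) : π ∈ C := by
  rw [h.2.2.2.2]; exact ⟨hd.1, p, hd.2.1 ▸ hσ, hd.2.2 ▸ hτ⟩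

lemma pick {C A B : Set (List ℕ)} (h : ExactSplit C A B) {π σ : List ℕ} (hπ : π ∈ C)
    (hd : ∀ p : ℕ → Bool, (∃ l ∈ (π.filter p).sublists, std l = σ) ∨
      ∃ l ∈ (π.filter fun x => !p x).sublists, std l = σ) : σ ∈ A ∨ σ ∈ B := by
  rw [h.2.2.2.2] at hπ
  obtain ⟨-, p, h1, h2⟩ := hπ
  rcases hd p with ⟨l, hl, rfl⟩ | ⟨l, hl, rfl⟩
  · exact Or.inl (down h.1 h1 (List.mem_sublists.1 hl))
  · exact Or.inr (down h.2.1 h2 (List.mem_sublists.1 hl))

lemma irrM : ¬ ∃ A B, ExactSplit (Cl Mo) A B := by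
  have aux : ∀ A B, ExactSplit (Cl Mo) A B → [0, 1] ∉ A := fun A B h h1 =>
    absurd (mk h [0, 2, 1] (· ≠ 2) h1 (one_mem (cl_class gM) h).2 (by decide)).2 (by decide)
  rintro ⟨A, B, h⟩
  rcases pick h (π := [0, 1, 2]) (σ := [0, 1]) ⟨by decide, by decide⟩ (fun p => by
    simp only [List.filter_cons, List.filter_nil]
    cases p 0 <;> cases p 1 <;> cases p 2 <;> decide) with h1 | h1
  · exact aux A B h h1
  · exact aux B A (split_symm h) h1

lemma notW {π l1 l2 : List ℕ} (h1 : l1.Sublist π) (h2 : l2.Sublist π)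
    (h3 : std l1 = [0, 1, 2]) (h4 : std l2 = [2, 1, 0]) : π ∉ Cl Wd := by
  rintro ⟨hp, h | h⟩
  · have := (std_mem (good_sp gI gI) (hp.nodup.sublist h2)).2 ((good_sp gI gI).2.2 _ _ h2 h)
    rw [h4] at this
    obtain ⟨-, p, h5, h6⟩ := this
    simp only [List.filter_cons, List.filter_nil] at h5 h6
    revert h5 h6
    cases p 0 <;> cases p 1 <;> cases p 2 <;> decide
  · have := (std_mem (good_sp gD gD) (hp.nodup.sublist h1)).2 ((good_sp gD gD).2.2 _ _ h1 h)
    rw [h3] at this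
    obtain ⟨-, p, h5, h6⟩ := this
    simp only [List.filter_cons, List.filter_nil] at h5 h6
    revert h5 h6
    cases p 0 <;> cases p 1 <;> cases p 2 <;> decide

lemma irrW : ¬ ∃ A B, ExactSplit (Cl Wd) A B := by
  have cross : ∀ A B, ExactSplit (Cl Wd) A B → [0, 1, 2] ∈ A → [2, 1, 0] ∉ B := fun A B h h1 h2 =>
    notW (l1 := [0, 1, 2]) (l2 := [5, 4, 3]) (by decide) (by decide) (by decide) (by decide)
      (mk h [0, 1, 2, 5, 4, 3] (· < 3) h1 h2 (by decide))
  have same : ∀ A B, ExactSplit (Cl Wd) A B → [0, 1, 2] ∈ A → [2, 1, 0] ∉ A := by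
    intro A B h h1 h2
    have b1 : [1, 0] ∉ B := fun h3 =>
      notW (l1 := [0, 1, 2]) (l2 := [4, 3, 0]) (by decide) (by decide) (by decide) (by decide)
        (mk h [4, 3, 0, 1, 2] (· < 3) h1 h3 (by decide))
    have b2 : [0, 1] ∉ B := fun h3 =>
      notW (l1 := [0, 3, 4]) (l2 := [2, 1, 0]) (by decide) (by decide) (by decide) (by decide)
        (mk h [2, 1, 0, 3, 4] (· < 3) h2 h3 (by decide))
    have b0 := (one_mem (cl_class gW) h).2
    have a1 : [1, 0, 2, 3] ∉ A := fun h3 =>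
      notW (l1 := [0, 2, 3]) (l2 := [4, 1, 0]) (by decide) (by decide) (by decide) (by decide)
        (mk h [4, 1, 0, 2, 3] (· < 4) h3 b0 (by decide))
    have a2 : [0, 1, 3, 2] ∉ A := fun h3 =>
      notW (l1 := [0, 1, 3]) (l2 := [4, 3, 2]) (by decide) (by decide) (by decide) (by decide)
        (mk h [4, 0, 1, 3, 2] (· < 4) h3 b0 (by decide))
    have hπ : [1, 0, 3, 2, 5, 4] ∈ Cl Wd :=
      ⟨by decide, Or.inl ⟨fun x => x % 2 = 0, by decide, by decide⟩⟩
    rw [h.2.2.2.2] at hπ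
    obtain ⟨-, p, h5, h6⟩ := hπ
    have : (∃ l ∈ ([1, 0, 3, 2, 5, 4].filter p).sublists,
        std l = [1, 0, 2, 3] ∨ std l = [0, 1, 3, 2]) ∨
        ∃ l ∈ ([1, 0, 3, 2, 5, 4].filter fun x => !p x).sublists,
          std l = [1, 0] ∨ std l = [0, 1] := by
      simp only [List.filter_cons, List.filter_nil]
      cases p 0 <;> cases p 1 <;> cases p 2 <;> cases p 3 <;> cases p 4 <;> cases p 5 <;> decide
    rcases this with ⟨l, hl, h7 | h7⟩ | ⟨l, hl, h7 | h7⟩
    · exact a1 (h7 ▸ down h.1 h5 (List.mem_sublists.1 hl))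
    · exact a2 (h7 ▸ down h.1 h5 (List.mem_sublists.1 hl))
    · exact b1 (h7 ▸ down h.2.1 h6 (List.mem_sublists.1 hl))
    · exact b2 (h7 ▸ down h.2.1 h6 (List.mem_sublists.1 hl))
  rintro ⟨A, B, h⟩
  have i1 := pick h (π := [0, 1, 2, 3, 4]) (σ := [0, 1, 2])
    ⟨by decide, Or.inl (sp_left gI _ (by decide))⟩ (fun p => by
    simp only [List.filter_cons, List.filter_nil]
    cases p 0 <;> cases p 1 <;> cases p 2 <;> cases p 3 <;> cases p 4 <;> decide)
  have i2 := pick h (π := [4, 3, 2, 1, 0]) (σ := [2, 1, 0])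
    ⟨by decide, Or.inr (sp_left gD _ (by decide))⟩ (fun p => by
    simp only [List.filter_cons, List.filter_nil]
    cases p 0 <;> cases p 1 <;> cases p 2 <;> cases p 3 <;> cases p 4 <;> decide)
  rcases i1 with i1 | i1 <;> rcases i2 with i2 | i2
  · exact same A B h i1 i2
  · exact cross A B h i1 i2
  · exact cross B A (split_symm h) i1 i2
  · exact same B A (split_symm h) i1 i2

lemma inf_of {P : List ℕ → Prop} (h : ∀ l, Inc l → P l) : (Cl P).Infinite :=
  Set.infinite_of_injective_forall_mem (f := fun n : ℕ => List.range n)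
    (fun a b hab => by simpa using congrArg List.length hab)
    fun n => ⟨by simp [IsPerm], h _ List.pairwise_lt_range⟩

theorem result : ∃ C : Set (List ℕ), IsClass C ∧ C.Infinite ∧
    ∃ X Y : Set (Set (List ℕ)), IrrSplit C X ∧ IrrSplit C Y ∧ X ≠ Y ∧
      ∀ A ∈ X ∪ Y, A.Infinite := by
  have g2 := good_sp gM gM
  have hπ : [2, 1, 0, 4, 3, 5] ∈ Cl (Sp (Sp Mo Mo) Mo) :=
    ⟨by decide, (· < 5), ⟨(· < 3), by decide, by decide⟩, by decide⟩
  have n2 : [2, 1, 0, 4, 3, 5] ∉ Cl (Sp Mo Mo) := by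
    rintro ⟨-, p, h5, h6⟩
    simp only [List.filter_cons, List.filter_nil] at h5 h6
    revert h5 h6
    cases p 0 <;> cases p 1 <;> cases p 2 <;> cases p 3 <;> cases p 4 <;> cases p 5 <;> decide
  have s12 : Cl Mo ⊆ Cl (Sp Mo Mo) := fun π h => ⟨h.1, sp_left gM _ h.2⟩
  have s23 : Cl (Sp Mo Mo) ⊆ Cl (Sp (Sp Mo Mo) Mo) := fun π h => ⟨h.1, sp_left gM _ h.2⟩
  have p12 : Cl Mo ⊂ Cl (Sp Mo Mo) := ⟨s12, fun h =>
    absurd (h (a := [0, 2, 1]) ⟨by decide, (· < 2), by decide, by decide⟩).2 (by decide)⟩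
  have p23 : Cl (Sp Mo Mo) ⊂ Cl (Sp (Sp Mo Mo) Mo) := ⟨s23, fun h => n2 (h hπ)⟩
  have pW : Cl Wd ⊂ Cl (Sp (Sp Mo Mo) Mo) :=
    ⟨fun π h => ⟨h.1, (key π).2 (sp_left gM _ h.2)⟩, fun h =>
      notW (l1 := [2, 4, 5]) (l2 := [2, 1, 0]) (by decide) (by decide) (by decide) (by decide)
        (h hπ)⟩
  have iM : (Cl Mo).Infinite := inf_of fun _ => Or.inl
  have iW : (Cl Wd).Infinite := inf_of fun l h => Or.inl (sp_left gI l h)
  refine ⟨Cl (Sp (Sp Mo Mo) Mo), cl_class (good_sp g2 gM), iM.mono (s12.trans s23),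
    ({Cl Mo} ∪ {Cl Mo}) ∪ {Cl Mo}, {Cl Wd} ∪ {Cl Mo}, ?_, ?_, fun h => ?_, ?_⟩
  · exact .step _ _ _ _ _ ⟨cl_class g2, cl_class gM, p23, p12.trans p23, (merge_cl g2 gM).symm⟩
      (.step _ _ _ _ _ ⟨cl_class gM, cl_class gM, p12, p12, (merge_cl gM gM).symm⟩
        (.base _ irrM) (.base _ irrM)) (.base _ irrM)
  · refine .step _ _ _ _ _ ⟨cl_class gW, cl_class gM, pW, p12.trans p23, ?_⟩
      (.base _ irrW) (.base _ irrM)
    rw [merge_cl gW gM]
    ext π
    exact and_congr_right fun _ => key π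
  · have h1 : Cl Wd ∈ ({Cl Mo} ∪ {Cl Mo}) ∪ ({Cl Mo} : Set (Set (List ℕ))) := by
      rw [h]; simp
    have h2 : Cl Wd = Cl Mo := by simpa using h1
    have h3 : [0, 2, 1] ∈ Cl Wd := ⟨by decide, Or.inl ⟨(· < 2), by decide, by decide⟩⟩
    rw [h2] at h3
    exact absurd h3.2 (by decide)
  · intro A hA
    simp only [Set.mem_union, Set.mem_singleton_iff] at hA
    rcases hA with ((rfl | rfl) | rfl) | rfl | rfl <;> assumption

end Pool.Agent.Results.MP_673260_co.NonUnique
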